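import Pool.Agent.H71.Patch.Fields

/-!
# Frobenius and inertia conditions at primes of a number field
-/

open scoped Pointwise NumberField
open Matrix IsDedekindDomain

namespace Pool.Agent.H71.Patch

variable (K : Type*) [Field K] [NumberField K]

/-- the fixed points of the absolute Galois group on the algebraic integers are the integers of `K` -/
instance : Algebra.IsInvariant (𝓞 K) (Zbar K) (GalK K) := by
  constructor
  intro b hb
  have h1 : (b : AlgebraicClosure K) ∈ Set.range (algebraMap K (AlgebraicClosure K)) := by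
    rw [InfiniteGalois.mem_range_algebraMap_iff_fixed]
    intro g
    have := congrArg (Subtype.val) (hb g)
    simpa using this
  obtain ⟨k, hk⟩ := h1
  have hint : IsIntegral (𝓞 K) (b : AlgebraicClosure K) := b.2
  rw [← hk, isIntegral_algebraMap_iff (FaithfulSMul.algebraMap_injective K _)] at hint
  obtain ⟨a, rfl⟩ := IsIntegrallyClosed.algebraMap_eq_of_integral hint
  refine ⟨a, ?_⟩
  apply Subtype.ext
  rw [← hk]
  exact (IsScalarTower.algebraMap_apply (𝓞 K) K (AlgebraicClosure K) a)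

/-- the absolute Galois group acts transitively on the primes of `Zbar` over a prime of `K` -/
lemma exists_smul_eq (P Q : Ideal (Zbar K)) [P.IsPrime] [Q.IsPrime]
    (h : P.under (𝓞 K) = Q.under (𝓞 K)) : ∃ g : GalK K, Q = g • P := by
  let _ : TopologicalSpace (Zbar K) := ⊥
  have _ : DiscreteTopology (Zbar K) := ⟨rfl⟩
  have _ : ContinuousSMul (GalK K) (Zbar K) := by
    rw [continuousSMul_iff_stabilizer_isOpen]
    intro x
    have h1 := stabilizer_isOpen_of_isIntegral (K := K) (L := AlgebraicClosure K)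
      (x : AlgebraicClosure K)
    convert h1 using 1
    ext g
    simp only [SetLike.mem_coe, MulAction.mem_stabilizer_iff]
    constructor
    · intro h
      exact congrArg Subtype.val h
    · intro h
      exact Subtype.ext h
  exact Algebra.IsInvariant.exists_smul_of_under_eq_of_profinite P Q h

variable {K}
variable {F : Type*} [Field F] {n : ℕ}

lemma above_smul {v : HeightOneSpectrum (𝓞 K)} {Q Q' : Ideal (Zbar K)} (h : Above v Q)
    (h' : Above v Q') : ∃ g : GalK K, Q' = g • Q := by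
  have := h.1
  have := h'.1
  exact exists_smul_eq K Q Q' (h.2.trans h'.2.symm)

omit [NumberField K] in
lemma unram_transfer (σ : GalK K →* GL (Fin n) F) {A : Subgroup (GalK K)} (ρ : A →* GL (Fin n) F)
    (T : GL (Fin n) F) (hT : ∀ g : A, ρ g = T * σ g * T⁻¹) {Q : Ideal (Zbar K)}
    (hA : Q.inertia (GalK K) ≤ A) (h : UnramAt ρ Q) :
    UnramAt (σ.comp (⊤ : Subgroup (GalK K)).subtype) Q := by
  intro g hg
  have hgA : (g : GalK K) ∈ A := hA hg
  have h1 := h ⟨g, hgA⟩ hg
  rw [hT] at h1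
  show σ (g : GalK K) = 1
  have h2 : σ (g : GalK K) = T⁻¹ * (T * σ (g : GalK K) * T⁻¹) * T := by group
  rw [h2, h1]
  group

omit [NumberField K] in
lemma frob_transfer (σ : GalK K →* GL (Fin n) F) {A : Subgroup (GalK K)} (ρ : A →* GL (Fin n) F)
    (T : GL (Fin n) F) (hT : ∀ g : A, ρ g = T * σ g * T⁻¹) {Q : Ideal (Zbar K)} (hQ : Q.IsPrime)
    (hA : Dec Q ≤ A) {P : Polynomial F} (h : FrobAt ρ Q P) :
    FrobAt (σ.comp (⊤ : Subgroup (GalK K)).subtype) Q P := by
  intro g hg
  have hgA : (g : GalK K) ∈ A := hA (IsArithFrobAt.mem_stabilizer hg)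
  have h1 := h ⟨g, hgA⟩ hg
  rw [hT] at h1
  rw [← h1]
  show ((σ (g : GalK K) : GL (Fin n) F) : Matrix (Fin n) (Fin n) F).charpoly = _
  rw [Units.val_mul, Units.val_mul, Matrix.coe_units_inv]
  exact (Matrix.charpoly_units_conj T _).symm

omit [NumberField K] in
lemma unram_conj (σ : GalK K →* GL (Fin n) F) {Q : Ideal (Zbar K)} (g : GalK K)
    (h : UnramAt (σ.comp (⊤ : Subgroup (GalK K)).subtype) Q) :
    UnramAt (σ.comp (⊤ : Subgroup (GalK K)).subtype) (g • Q) := by
  intro x hx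
  have h1 : g⁻¹ * (x : GalK K) * g ∈ Q.inertia (GalK K) := by
    intro y
    have h2 := hx (g • y)
    rw [Submodule.mem_toAddSubgroup, Ideal.pointwise_smul_eq_comap, Ideal.mem_comap] at h2
    have h3 : (g⁻¹ * (x : GalK K) * g) • y - y = g⁻¹ • ((x : GalK K) • g • y - g • y) := by
      rw [smul_sub, mul_smul, mul_smul, inv_smul_smul]
    rw [Submodule.mem_toAddSubgroup, h3]
    exact h2
  have h4 := h ⟨_, Subgroup.mem_top (g⁻¹ * (x : GalK K) * g)⟩ h1
  show σ (x : GalK K) = 1
  have h5 : σ (g⁻¹ * (x : GalK K) * g) = 1 := h4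
  rw [map_mul, map_mul, map_inv] at h5
  have h6 : σ (x : GalK K) = σ g * ((σ g)⁻¹ * σ (x : GalK K) * σ g) * (σ g)⁻¹ := by group
  rw [h6, h5]
  group

omit [NumberField K] in
lemma frob_conj (σ : GalK K →* GL (Fin n) F) {Q : Ideal (Zbar K)} (g : GalK K)
    {P : Polynomial F} (h : FrobAt (σ.comp (⊤ : Subgroup (GalK K)).subtype) Q P) :
    FrobAt (σ.comp (⊤ : Subgroup (GalK K)).subtype) (g • Q) P := by
  intro x hx
  have h1 : IsArithFrobAt (𝓞 K) (g⁻¹ * (x : GalK K) * g) Q := by
    have h2 := IsArithFrobAt.conj hx g⁻¹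
    rw [inv_smul_smul, inv_inv] at h2
    exact h2
  have h4 := h ⟨_, Subgroup.mem_top (g⁻¹ * (x : GalK K) * g)⟩ h1
  rw [← h4]
  show ((σ (x : GalK K) : GL (Fin n) F) : Matrix (Fin n) (Fin n) F).charpoly =
    ((σ (g⁻¹ * (x : GalK K) * g) : GL (Fin n) F) : Matrix (Fin n) (Fin n) F).charpoly
  rw [map_mul, map_mul, map_inv, Units.val_mul, Units.val_mul, Matrix.coe_units_inv]
  exact (Matrix.charpoly_units_conj' (σ g) _).symm

omit [NumberField K] in
lemma pot_transfer {W : Ideal (Zbar K) → (H : Subgroup (GalK K)) → (H →* GL (Fin n) F) → Prop}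
    (hW : IsLocalProperty W) (σ : GalK K →* GL (Fin n) F) {A : Subgroup (GalK K)}
    (ρ : A →* GL (Fin n) F) (T : GL (Fin n) F) (hT : ∀ g : A, ρ g = T * σ g * T⁻¹)
    {Q : Ideal (Zbar K)} (g : GalK K) (h : PotAt W ρ Q) :
    PotAt W (σ.comp (⊤ : Subgroup (GalK K)).subtype) (g • Q) := by
  obtain ⟨E, hE, hEA, hWE⟩ := h
  have hD : ∀ x : GalK K, x ∈ Dec Q ↔ g * x * g⁻¹ ∈ Dec (g • Q) := by
    intro x
    rw [MulAction.mem_stabilizer_iff, MulAction.mem_stabilizer_iff]
    constructor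
    · intro hx
      rw [mul_smul, mul_smul, inv_smul_smul, hx]
    · intro hx
      rw [mul_smul, mul_smul, inv_smul_smul] at hx
      exact smul_left_cancel g hx
  have hF : ∀ x : GalK K, x ∈ E.fixingSubgroup ↔ g * x * g⁻¹ ∈ (E.map g.toAlgHom).fixingSubgroup := by
    intro x
    rw [IntermediateField.mem_fixingSubgroup_iff, IntermediateField.mem_fixingSubgroup_iff]
    constructor
    · rintro hx _ ⟨y, hy, rfl⟩
      show g (x (g⁻¹ (g y))) = g y
      have h1 : g⁻¹ (g y) = y := by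
        show (g⁻¹ * g) y = y
        rw [inv_mul_cancel]
        rfl
      rw [h1, hx y hy]
    · intro hx y hy
      have h2 := hx (g y) ⟨y, hy, rfl⟩
      have h1 : g⁻¹ (g y) = y := by
        show (g⁻¹ * g) y = y
        rw [inv_mul_cancel]
        rfl
      have h3 : g (x (g⁻¹ (g y))) = g y := h2
      rw [h1] at h3
      exact g.injective h3
  refine ⟨E.map g.toAlgHom, inferInstance, fun x _ => Subgroup.mem_top x, ?_⟩
  refine hW g (σ g * T⁻¹) Q _ _ _ _ ?_ ?_ hWE
  · intro x
    rw [Subgroup.mem_inf, Subgroup.mem_inf, hF x, hD x]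
  · intro x hx hx'
    have h1 : ρ ⟨x, hEA hx⟩ = T * σ x * T⁻¹ := hT ⟨x, hEA hx⟩
    show σ (g * x * g⁻¹) = (σ g * T⁻¹) * ρ ⟨x, hEA hx⟩ * (σ g * T⁻¹)⁻¹
    rw [h1, map_mul, map_mul, map_inv]
    group

end Pool.Agent.H71.Patch
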