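import Pool.Agent.H71.Patch.Local

/-!
# The gluing theorem for Galois representations over number fields
-/

open scoped Pointwise NumberField
open Matrix IsDedekindDomain

namespace Pool.Agent.H71.Patch

section Pair

variable {K Ω : Type*} [Field K] [Field Ω] [Algebra K Ω] [IsGalois K Ω]

/-- an infinite pairwise disjoint family is in general position with every finite `M` -/
lemma disj_of_pairwise {ι : Type*} [Infinite ι] (L : ι → IntermediateField K Ω)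
    (h : ∀ i j, i ≠ j → L i ⊓ L j = ⊥) (M : IntermediateField K Ω) [FiniteDimensional K M] :
    ∃ i, L i ⊓ M = ⊥ := by
  have hsep : Algebra.IsSeparable K M := inferInstance
  have hfin : Finite (IntermediateField K M) :=
    Field.exists_primitive_element_iff_finite_intermediateField K M |>.mp
      ⟨inferInstance, Field.exists_primitive_element K M⟩
  let f : ι → IntermediateField K M := fun i => IntermediateField.restrict
    (inf_le_right : L i ⊓ M ≤ M)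
  obtain ⟨i, j, hij, hf⟩ := Finite.exists_ne_map_eq_of_infinite f
  have e1 : L i ⊓ M = L j ⊓ M := by
    have h1 := congrArg IntermediateField.lift hf
    rwa [IntermediateField.lift_restrict, IntermediateField.lift_restrict] at h1
  refine ⟨i, ?_⟩
  rw [eq_bot_iff, ← h i j hij]
  exact le_inf inf_le_left (e1 ▸ inf_le_left)

end Pair

section Irr

variable {Γ : Type*} [Group Γ] {F : Type*} [Field F] {n : ℕ}

lemma irred_transfer (σ : Γ →* GL (Fin n) F) {A : Subgroup Γ} (ρ : A →* GL (Fin n) F)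
    (T : GL (Fin n) F) (hT : ∀ g : A, ρ g = T * σ g * T⁻¹) (h : Irred ρ) : Irred σ := by
  refine ⟨h.1, fun W hW => ?_⟩
  have hTT : ∀ x : Fin n → F, (T⁻¹ : GL (Fin n) F).1 *ᵥ (T.1 *ᵥ x) = x := by
    intro x
    rw [Matrix.mulVec_mulVec, ← Units.val_mul, inv_mul_cancel, Units.val_one, Matrix.one_mulVec]
  have hcase := h.2 (W.comap (Matrix.mulVecLin (T⁻¹ : GL (Fin n) F).1)) (by
    intro g x hx
    rw [Submodule.mem_comap, Matrix.mulVecLin_apply] at hx ⊢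
    have h1 := hW g _ hx
    have h2 : (T⁻¹ : GL (Fin n) F).1 *ᵥ ((ρ g).1 *ᵥ x) =
        (σ g).1 *ᵥ ((T⁻¹ : GL (Fin n) F).1 *ᵥ x) := by
      rw [Matrix.mulVec_mulVec, Matrix.mulVec_mulVec, ← Units.val_mul, ← Units.val_mul, hT]
      congr 2
      group
    rw [h2]
    exact h1)
  rcases hcase with h0 | h0
  · left
    rw [eq_bot_iff]
    intro x hx
    have h1 : T.1 *ᵥ x ∈ W.comap (Matrix.mulVecLin (T⁻¹ : GL (Fin n) F).1) := by
      rw [Submodule.mem_comap, Matrix.mulVecLin_apply, hTT]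
      exact hx
    rw [h0, Submodule.mem_bot] at h1
    rw [Submodule.mem_bot, ← hTT x, h1, Matrix.mulVec_zero]
  · right
    rw [eq_top_iff]
    intro x _
    have h1 : T.1 *ᵥ x ∈ W.comap (Matrix.mulVecLin (T⁻¹ : GL (Fin n) F).1) := by
      rw [h0]
      trivial
    rw [Submodule.mem_comap, Matrix.mulVecLin_apply, hTT] at h1
    exact h1

end Irr

section Main

variable {K : Type*} [Field K] [NumberField K] {F : Type*} [Field F] [TopologicalSpace F]
  [IsTopologicalRing F]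

/-- The gluing theorem, with all properties. -/
theorem patch {n : ℕ} {ι : Type*}
    (L : ι → IntermediateField K (AlgebraicClosure K)) [∀ i, FiniteDimensional K (L i)]
    (disj : GenPos L)
    (ρ : ∀ i, (L i).fixingSubgroup →* GL (Fin n) F) (hc : ∀ i, Continuous (ρ i))
    (compat : ∀ i j, IsoOn (ρ i) (ρ j)) :
    ∃ σ : GalK K →* GL (Fin n) F, Continuous σ ∧
      (∀ i, ∃ T : GL (Fin n) F, ∀ g : (L i).fixingSubgroup, ρ i g = T * σ g * T⁻¹) ∧
      (∀ τ : GalK K →* GL (Fin n) F,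
        (∀ i, ∃ T : GL (Fin n) F, ∀ g : (L i).fixingSubgroup, ρ i g = T * τ g * T⁻¹) →
        ∃ T : GL (Fin n) F, ∀ g, τ g = T * σ g * T⁻¹) ∧
      (∀ i, Irred (ρ i) → Irred σ) ∧
      (∀ v : HeightOneSpectrum (𝓞 K),
        (∃ i, ∃ Q, Above v Q ∧ Q.inertia (GalK K) ≤ (L i).fixingSubgroup ∧ UnramAt (ρ i) Q) →
        ∀ Q, Above v Q → UnramAt (σ.comp (⊤ : Subgroup (GalK K)).subtype) Q) ∧
      (∀ (v : HeightOneSpectrum (𝓞 K)) (P : Polynomial F),
        (∃ i, ∃ Q, Above v Q ∧ Dec Q ≤ (L i).fixingSubgroup ∧ FrobAt (ρ i) Q P) →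
        ∀ Q, Above v Q → FrobAt (σ.comp (⊤ : Subgroup (GalK K)).subtype) Q P) ∧
      (∀ W, IsLocalProperty W → ∀ v : HeightOneSpectrum (𝓞 K),
        (∃ i, ∃ Q, Above v Q ∧ PotAt W (ρ i) Q) →
        ∀ Q, Above v Q → PotAt W (σ.comp (⊤ : Subgroup (GalK K)).subtype) Q) := by
  obtain ⟨σ, hσ, hT⟩ := glue_gal L disj ρ hc compat
  refine ⟨σ, hσ, hT, ?_, ?_, ?_, ?_, ?_⟩
  · intro τ hτ
    refine unique_gal L disj σ τ fun i => ?_
    obtain ⟨T, hT⟩ := hT i
    obtain ⟨T', hT'⟩ := hτ i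
    refine ⟨T'⁻¹ * T, fun g hg => ?_⟩
    have h1 := hT ⟨g, hg⟩
    have h2 := hT' ⟨g, hg⟩
    rw [h1] at h2
    have h3 : τ g = T'⁻¹ * (T' * τ g * T'⁻¹) * T' := by group
    rw [h3]
    have h4 : T' * τ g * T'⁻¹ = T * σ g * T⁻¹ := h2.symm
    rw [h4]
    group
  · intro i hi
    obtain ⟨T, hT⟩ := hT i
    exact irred_transfer σ (ρ i) T hT hi
  · rintro v ⟨i, Q, hQ, hD, hgood⟩ Q' hQ'
    obtain ⟨T, hT⟩ := hT i
    obtain ⟨g, rfl⟩ := above_smul hQ hQ'
    exact unram_conj σ g (unram_transfer σ (ρ i) T hT hD hgood)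
  · rintro v P ⟨i, Q, hQ, hD, hgood⟩ Q' hQ'
    obtain ⟨T, hT⟩ := hT i
    obtain ⟨g, rfl⟩ := above_smul hQ hQ'
    exact frob_conj σ g (frob_transfer σ (ρ i) T hT hQ.1 hD hgood)
  · rintro W hW v ⟨i, Q, hQ, hpot⟩ Q' hQ'
    obtain ⟨T, hT⟩ := hT i
    obtain ⟨g, rfl⟩ := above_smul hQ hQ'
    exact pot_transfer hW σ (ρ i) T hT g hpot

omit [NumberField K] [TopologicalSpace F] [IsTopologicalRing F] in
lemma irred_top {n : ℕ} {σ : GalK K →* GL (Fin n) F} (h : Irred σ) :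
    Irred (σ.comp (⊤ : Subgroup (GalK K)).subtype) :=
  ⟨h.1, fun W hW => h.2 W fun g x hx => hW ⟨g, trivial⟩ x hx⟩

/-- The form of the gluing theorem for the conditions of Q1. -/
theorem patch_q1 {ι : Type*}
    (L : ι → IntermediateField K (AlgebraicClosure K)) [∀ i, FiniteDimensional K (L i)]
    (disj : GenPos L) (S : Set (HeightOneSpectrum (𝓞 K)))
    (a b : HeightOneSpectrum (𝓞 K) → F) (l : ℕ)
    (W : Ideal (Zbar K) → (H : Subgroup (GalK K)) → (H →* GL (Fin 2) F) → Prop)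
    (hW : IsLocalProperty W)
    (hsplit : ∀ v : HeightOneSpectrum (𝓞 K), v ∉ S → (l : 𝓞 K) ∉ v.asIdeal →
      ∃ i, ∃ Q, Above v Q ∧ Dec Q ≤ (L i).fixingSubgroup)
    (ρ : ∀ i, (L i).fixingSubgroup →* GL (Fin 2) F) (hρ : ∀ i, Q1Rep S a b l W (ρ i))
    (compat : ∀ i j, IsoOn (ρ i) (ρ j)) :
    ∃ σ : GalK K →* GL (Fin 2) F, Q1Rep S a b l W (σ.comp (⊤ : Subgroup (GalK K)).subtype) := by
  obtain ⟨σ, hσ, -, -, hirr, hunr, hfrob, hpot⟩ := patch L disj ρ (fun i => (hρ i).1) compat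
  obtain ⟨i₀, -⟩ := disj ⊥ inferInstance inferInstance
  refine ⟨σ, hσ.comp continuous_subtype_val, irred_top (hirr i₀ (hρ i₀).2.1), ?_, ?_⟩
  · intro v hv hl Q hQ _
    obtain ⟨i, Q', hQ', hD⟩ := hsplit v hv hl
    have h1 := (hρ i).2.2.1 v hv hl Q' hQ' hD
    refine ⟨hunr v ⟨i, Q', hQ', ?_, h1.1⟩ Q hQ, hfrob v _ ⟨i, Q', hQ', hD, h1.2⟩ Q hQ⟩
    exact (Ideal.inertia_le_stabilizer Q').trans hD
  · intro v hl Q hQ
    exact hpot W hW v ⟨i₀, Q, hQ, (hρ i₀).2.2.2 v hl Q hQ⟩ Q hQ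

end Main

end Pool.Agent.H71.Patch
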