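import Mathlib

/-!
# Definitions for the gluing theorem for Galois representations (MP_976e2b_nt)

`Zbar K` is the ring of algebraic integers, its prime ideals `Q` are the places of the algebraic
closure; `Dec Q` is the decomposition group of `Q`.
-/

open scoped Pointwise NumberField
open Matrix IsDedekindDomain

namespace Pool.Agent.H71.Patch

section Def

variable {Γ : Type*} [Group Γ] {F : Type*} [Field F] {n : ℕ}

/-- Two representations `ρ : A → GL_n(F)`, `τ : B → GL_n(F)` of subgroups `A`, `B` of `Γ` are
isomorphic on the intersection of `A` and `B`. -/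
def IsoOn {A B : Subgroup Γ} (ρ : A →* GL (Fin n) F) (τ : B →* GL (Fin n) F) : Prop :=
  ∃ T : GL (Fin n) F, ∀ (g : Γ) (ha : g ∈ A) (hb : g ∈ B), τ ⟨g, hb⟩ = T * ρ ⟨g, ha⟩ * T⁻¹

/-- `ρ` is irreducible: `n` is not zero and there is no invariant subspace except `0` and `F^n`. -/
def Irred {A : Type*} [Group A] (ρ : A →* GL (Fin n) F) : Prop :=
  n ≠ 0 ∧ ∀ W : Submodule F (Fin n → F),
    (∀ g : A, ∀ x ∈ W, (ρ g : Matrix (Fin n) (Fin n) F) *ᵥ x ∈ W) → W = ⊥ ∨ W = ⊤

end Def

variable (K : Type*) [Field K] [NumberField K]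

/-- The ring of all algebraic integers in the algebraic closure of `K`. -/
noncomputable abbrev Zbar : Subalgebra (𝓞 K) (AlgebraicClosure K) :=
  integralClosure (𝓞 K) (AlgebraicClosure K)

/-- The absolute Galois group of `K`. -/
noncomputable abbrev GalK : Type _ := Gal(AlgebraicClosure K/K)

variable {K}

/-- `Q` is a prime ideal of the ring of all algebraic integers above the prime `v` of `K`. -/
def Above (v : HeightOneSpectrum (𝓞 K)) (Q : Ideal (Zbar K)) : Prop :=
  Q.IsPrime ∧ Q.under (𝓞 K) = v.asIdeal

/-- The decomposition group of `Q` in the absolute Galois group of `K`. -/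
noncomputable abbrev Dec (Q : Ideal (Zbar K)) : Subgroup (GalK K) := MulAction.stabilizer (GalK K) Q

variable {F : Type*} [Field F] {n : ℕ}

/-- `ρ` is unramified at `Q`: it is trivial on the elements of `A` in the inertia group of `Q`. -/
def UnramAt {A : Subgroup (GalK K)} (ρ : A →* GL (Fin n) F) (Q : Ideal (Zbar K)) : Prop :=
  ∀ g : A, (g : GalK K) ∈ Q.inertia (GalK K) → ρ g = 1

/-- All (arithmetic) Frobenius elements at `Q` over `K` that lie in the group `A` have
characteristic polynomial `P`. -/
def FrobAt {A : Subgroup (GalK K)} (ρ : A →* GL (Fin n) F) (Q : Ideal (Zbar K))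
    (P : Polynomial F) : Prop :=
  ∀ g : A, IsArithFrobAt (𝓞 K) (g : GalK K) Q → (ρ g : Matrix (Fin n) (Fin n) F).charpoly = P

/-- The family `L` of extensions of `K` is in general position: every finite Galois extension `M`
of `K` is disjoint from some member, that is `L i ∩ M = K` for some `i`. -/
def GenPos {ι : Type*} (L : ι → IntermediateField K (AlgebraicClosure K)) : Prop :=
  ∀ M : IntermediateField K (AlgebraicClosure K), FiniteDimensional K M → IsGalois K M →
    ∃ i, L i ⊓ M = ⊥

/-- A property `W Q H ρ` of representations `ρ` of subgroups `H` (in practice: open subgroups of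
the decomposition group of `Q`) is a local property if it is preserved by isomorphisms (conjugation
by `T ∈ GL_n(F)`) and by transport of structure along elements `g` of the Galois group. -/
def IsLocalProperty
    (W : Ideal (Zbar K) → (H : Subgroup (GalK K)) → (H →* GL (Fin n) F) → Prop) : Prop :=
  ∀ (g : GalK K) (T : GL (Fin n) F) (Q : Ideal (Zbar K)) (H H' : Subgroup (GalK K))
    (ρ : H →* GL (Fin n) F) (ρ' : H' →* GL (Fin n) F),
    (∀ x, x ∈ H ↔ g * x * g⁻¹ ∈ H') →
    (∀ x (hx : x ∈ H) (hx' : g * x * g⁻¹ ∈ H'), ρ' ⟨g * x * g⁻¹, hx'⟩ = T * ρ ⟨x, hx⟩ * T⁻¹) →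
    W Q H ρ → W (g • Q) H' ρ'

/-- `ρ` has the property `W` potentially at `Q`: for some finite extension `E` of `K` the restriction
of `ρ` to the decomposition group of `Q` over `E` (which is the absolute Galois group of the
completion of `E` at the place below `Q`) is defined and has the property `W`. -/
def PotAt (W : Ideal (Zbar K) → (H : Subgroup (GalK K)) → (H →* GL (Fin n) F) → Prop)
    {A : Subgroup (GalK K)} (ρ : A →* GL (Fin n) F) (Q : Ideal (Zbar K)) : Prop :=
  ∃ E : IntermediateField K (AlgebraicClosure K), FiniteDimensional K E ∧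
    ∃ h : E.fixingSubgroup ⊓ Dec Q ≤ A, W Q (E.fixingSubgroup ⊓ Dec Q)
      (ρ.comp (Subgroup.inclusion h))

/-- The conditions of Q1 on a two dimensional representation `ρ` of a subgroup `A` of the absolute
Galois group of `K` (for `A` the whole group: at all primes; for `A` the absolute Galois group of an
extension `L`: at the primes of `L` of degree one over `K`). `ρ` is continuous and irreducible; for
every prime `v` of `K` outside `S` and not dividing `l` and every `Q` above `v` whose decomposition
group lies in `A`, `ρ` is unramified at `Q` and Frobenius elements have characteristic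
polynomial `X ^ 2 - a_v X + b_v N v`; and `ρ` has potentially the property `W` at every `Q` above
`l`. -/
def Q1Rep [TopologicalSpace F] (S : Set (HeightOneSpectrum (𝓞 K)))
    (a b : HeightOneSpectrum (𝓞 K) → F) (l : ℕ)
    (W : Ideal (Zbar K) → (H : Subgroup (GalK K)) → (H →* GL (Fin 2) F) → Prop)
    {A : Subgroup (GalK K)} (ρ : A →* GL (Fin 2) F) : Prop :=
  Continuous ρ ∧ Irred ρ ∧
    (∀ v : HeightOneSpectrum (𝓞 K), v ∉ S → (l : 𝓞 K) ∉ v.asIdeal → ∀ Q, Above v Q → Dec Q ≤ A →
      UnramAt ρ Q ∧ FrobAt ρ Q (Polynomial.X ^ 2 - Polynomial.C (a v) * Polynomial.X +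
        Polynomial.C (b v * (Ideal.absNorm v.asIdeal : F)))) ∧
    ∀ v : HeightOneSpectrum (𝓞 K), (l : 𝓞 K) ∈ v.asIdeal → ∀ Q, Above v Q → PotAt W ρ Q

end Pool.Agent.H71.Patch
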