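import Pool.Agent.H71.Patch.Descent
import Pool.Agent.H71.Patch.Defs

/-!
# Gluing representations of absolute Galois groups
-/

open scoped Pointwise NumberField
open Matrix IsDedekindDomain

namespace Pool.Agent.H71.Patch

section Gal

variable {K Ω : Type*} [Field K] [Field Ω] [Algebra K Ω] [IsGalois K Ω]

/-- the open normal subgroups -/
def openNormal (K Ω : Type*) [Field K] [Field Ω] [Algebra K Ω] : Set (Subgroup Gal(Ω/K)) :=
  {H | H.Normal ∧ IsOpen (H : Set Gal(Ω/K))}

omit [IsGalois K Ω] in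
lemma openNormal_inf (H : Subgroup Gal(Ω/K)) (hH : H ∈ openNormal K Ω) (H' : Subgroup Gal(Ω/K))
    (hH' : H' ∈ openNormal K Ω) : ∃ H'' ∈ openNormal K Ω, H'' ≤ H ⊓ H' := by
  refine ⟨H ⊓ H', ⟨?_, ?_⟩, le_rfl⟩
  · have := hH.1
    have := hH'.1
    exact Subgroup.normal_inf_normal H H'
  · rw [Subgroup.coe_inf]
    exact hH.2.inter hH'.2

omit [IsGalois K Ω] in
lemma openNormal_top : (⊤ : Subgroup Gal(Ω/K)) ∈ openNormal K Ω :=
  ⟨inferInstance, by rw [Subgroup.coe_top]; exact isOpen_univ⟩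

lemma exists_openNormal_le (L : IntermediateField K Ω) [FiniteDimensional K L] :
    ∃ H ∈ openNormal K Ω, H ≤ L.fixingSubgroup := by
  let M : IntermediateField K Ω := IntermediateField.normalClosure K L Ω
  have hM : FiniteDimensional K M := normalClosure.is_finiteDimensional K L Ω
  have hMn : Normal K M := normalClosure.normal K L Ω
  refine ⟨M.fixingSubgroup, ⟨?_, ?_⟩, ?_⟩
  · have : IsGalois K M := IsGalois.mk
    exact (InfiniteGalois.normal_iff_isGalois M).mpr this
  · exact M.fixingSubgroup_isOpen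
  · exact L.fixingSubgroup_le (IntermediateField.le_normalClosure L)

/-- a finite extension `L` with `L ∩ M = K`, `M` Galois, is in general position with `M` -/
lemma gp_of_inf_eq_bot (L M : IntermediateField K Ω) [FiniteDimensional K L]
    [IsGalois K M] (h : L ⊓ M = ⊥) : GP L.fixingSubgroup M.fixingSubgroup := by
  have hn : M.fixingSubgroup.Normal := (InfiniteGalois.normal_iff_isGalois M).mpr inferInstance
  have hopen : IsOpen ((L.fixingSubgroup ⊔ M.fixingSubgroup : Subgroup Gal(Ω/K)) :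
      Set Gal(Ω/K)) :=
    Subgroup.isOpen_mono le_sup_left L.fixingSubgroup_isOpen
  have hclosed := Subgroup.isClosed_of_isOpen _ hopen
  have hfix := InfiniteGalois.fixingSubgroup_fixedField (k := K) (K := Ω)
    ⟨L.fixingSubgroup ⊔ M.fixingSubgroup, hclosed⟩
  have hbot : IntermediateField.fixedField (L.fixingSubgroup ⊔ M.fixingSubgroup) = ⊥ := by
    rw [eq_bot_iff, ← h]
    refine le_inf ?_ ?_
    · conv_rhs => rw [← InfiniteGalois.fixedField_fixingSubgroup L]
      intro x hx g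
      exact hx ⟨g.1, (le_sup_left : L.fixingSubgroup ≤ _) g.2⟩
    · conv_rhs => rw [← InfiniteGalois.fixedField_fixingSubgroup M]
      intro x hx g
      exact hx ⟨g.1, (le_sup_right : M.fixingSubgroup ≤ _) g.2⟩
  have htop : L.fixingSubgroup ⊔ M.fixingSubgroup = ⊤ := by
    have h1 : (IntermediateField.fixedField
      (L.fixingSubgroup ⊔ M.fixingSubgroup)).fixingSubgroup =
        L.fixingSubgroup ⊔ M.fixingSubgroup := hfix
    rw [← h1, hbot, IntermediateField.fixingSubgroup_bot]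
  intro γ
  have hγ : γ ∈ L.fixingSubgroup ⊔ M.fixingSubgroup := by rw [htop]; trivial
  obtain ⟨a, ha, b, hb, e⟩ := Subgroup.mem_sup_of_normal_right.mp hγ
  exact ⟨a, ha, b, hb, e.symm⟩

/-- every open normal subgroup is the Galois group of a finite Galois extension -/
lemma openNormal_eq (H : Subgroup Gal(Ω/K)) (hH : H ∈ openNormal K Ω) :
    ∃ M : IntermediateField K Ω, FiniteDimensional K M ∧ IsGalois K M ∧ M.fixingSubgroup = H := by
  have hclosed := Subgroup.isClosed_of_isOpen _ hH.2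
  have hfix : (IntermediateField.fixedField H).fixingSubgroup = H :=
    InfiniteGalois.fixingSubgroup_fixedField (k := K) (K := Ω) ⟨H, hclosed⟩
  refine ⟨IntermediateField.fixedField H, ?_, ?_, hfix⟩
  · rw [← InfiniteGalois.isOpen_iff_finite]
    rw [hfix]
    exact hH.2
  · rw [← InfiniteGalois.normal_iff_isGalois, hfix]
    exact hH.1

/-- **Gluing for Galois groups** (existence) -/
theorem glue_gal {F : Type*} [Field F] [TopologicalSpace F] [IsTopologicalRing F] {n : ℕ}
    {ι : Type*} (L : ι → IntermediateField K Ω) [∀ i, FiniteDimensional K (L i)]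
    (disj : ∀ M : IntermediateField K Ω, FiniteDimensional K M → IsGalois K M →
      ∃ i, L i ⊓ M = ⊥)
    (ρ : ∀ i, (L i).fixingSubgroup →* GL (Fin n) F) (hc : ∀ i, Continuous (ρ i))
    (compat : ∀ i j, IsoOn (ρ i) (ρ j)) :
    ∃ σ : Gal(Ω/K) →* GL (Fin n) F, Continuous σ ∧
      ∀ i, ∃ T : GL (Fin n) F, ∀ g : (L i).fixingSubgroup, ρ i g = T * σ g * T⁻¹ := by
  classical
  let r : ι → Gal(Ω/K) → GL (Fin n) F := fun i g =>
    if h : g ∈ (L i).fixingSubgroup then ρ i ⟨g, h⟩ else 1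
  have hr : ∀ i g (h : g ∈ (L i).fixingSubgroup), r i g = ρ i ⟨g, h⟩ := fun i g h => dif_pos h
  have gp : ∀ H ∈ openNormal K Ω, ∃ i, GP (L i).fixingSubgroup H := by
    intro H hH
    obtain ⟨M, h1, h2, rfl⟩ := openNormal_eq H hH
    obtain ⟨i, hi⟩ := disj M h1 h2
    exact ⟨i, gp_of_inf_eq_bot (L i) M hi⟩
  obtain ⟨σ, hσ⟩ := exists_glue (openNormal K Ω) (fun i => (L i).fixingSubgroup)
    (fun H hH => hH.1) openNormal_inf ⟨⊤, openNormal_top⟩
    (fun i => exists_openNormal_le (L i)) gp r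
    (by
      intro i a ha b hb
      rw [hr i _ ha, hr i _ hb, hr i _ ((L i).fixingSubgroup.mul_mem ha hb), ← map_mul]
      rfl)
    (by
      intro i j
      obtain ⟨T, hT⟩ := compat i j
      refine ⟨T, fun g ha hb => ?_⟩
      rw [hr i _ ha, hr j _ hb]
      exact hT g ha hb)
  have hσ' : ∀ i, ∃ T : GL (Fin n) F, ∀ g : (L i).fixingSubgroup, ρ i g = T * σ g * T⁻¹ := by
    intro i
    obtain ⟨T, hT⟩ := hσ i
    refine ⟨T, fun g => ?_⟩
    rw [← hT g.1 g.2, hr i g.1 g.2]
  refine ⟨σ, ?_, hσ'⟩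
  obtain ⟨i, -⟩ := gp ⊤ openNormal_top
  obtain ⟨T, hT⟩ := hσ' i
  apply continuous_of_continuousAt_one σ
  have hopen : IsOpen ((L i).fixingSubgroup : Set Gal(Ω/K)) := (L i).fixingSubgroup_isOpen
  have h1 : ContinuousOn σ ((L i).fixingSubgroup : Set Gal(Ω/K)) := by
    rw [continuousOn_iff_continuous_domRestrict]
    have h2 : Set.domRestrict ((L i).fixingSubgroup : Set Gal(Ω/K)) σ =
        fun g : (L i).fixingSubgroup => T⁻¹ * ρ i g * T := by
      funext g
      show σ g.1 = _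
      rw [hT g]
      group
    rw [h2]
    exact (continuous_const.mul (hc i)).mul continuous_const
  exact h1.continuousAt (hopen.mem_nhds (Subgroup.one_mem _))

/-- **Gluing for Galois groups** (uniqueness) -/
theorem unique_gal {F : Type*} [Field F] {n : ℕ}
    {ι : Type*} (L : ι → IntermediateField K Ω) [∀ i, FiniteDimensional K (L i)]
    (disj : ∀ M : IntermediateField K Ω, FiniteDimensional K M → IsGalois K M →
      ∃ i, L i ⊓ M = ⊥)
    (σ τ : Gal(Ω/K) →* GL (Fin n) F)
    (h : ∀ i, ∃ T : GL (Fin n) F, ∀ g ∈ (L i).fixingSubgroup, τ g = T * σ g * T⁻¹) :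
    ∃ T : GL (Fin n) F, ∀ g, τ g = T * σ g * T⁻¹ := by
  have gp : ∀ H ∈ openNormal K Ω, ∃ i, GP (L i).fixingSubgroup H := by
    intro H hH
    obtain ⟨M, h1, h2, rfl⟩ := openNormal_eq H hH
    obtain ⟨i, hi⟩ := disj M h1 h2
    exact ⟨i, gp_of_inf_eq_bot (L i) M hi⟩
  obtain ⟨T, hT⟩ := unique_iso (openNormal K Ω) (fun i => (L i).fixingSubgroup) openNormal_inf
    (fun i => exists_openNormal_le (L i)) gp ⊤ ⟨⊤, openNormal_top, le_rfl⟩
    (fun g => σ g) (fun g => τ g) (fun a _ b _ => map_mul σ a b) (fun a _ b _ => map_mul τ a b)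
    ⊤ openNormal_top (by
      intro j _
      obtain ⟨T, hT⟩ := h j
      exact ⟨T, fun g _ hg => hT g hg⟩)
  exact ⟨T, fun g => hT g trivial⟩

end Gal

end Pool.Agent.H71.Patch
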