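import Mathlib

/-!
# Gluing representations given on subgroups in general position

`Γ` is a group with a family `Bas` of normal subgroups closed under pairwise intersections up to
refinement (for a profinite group: the open normal subgroups), `N i` subgroups each of which
contains a member of `Bas`, such that for every `H` in `Bas` there is an `i` with `N i * H = Γ`.
Then representations `N i → GL_n(F)` that are pairwise isomorphic on the intersections
`N i ∩ N j` are the restrictions of a representation of `Γ`, which is unique up to isomorphism.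
No semisimplicity, no normality of `N i`, no invariance under conjugation is assumed.
-/

open Matrix

namespace Pool.Agent.H71.Patch

variable {Γ : Type*} [Group Γ] {F : Type*} [Field F] {n : ℕ}

/-- `r` is multiplicative on `N`. -/
def MulOn (N : Subgroup Γ) (r : Γ → GL (Fin n) F) : Prop :=
  ∀ g ∈ N, ∀ h ∈ N, r (g * h) = r g * r h

lemma MulOn.mono {N N' : Subgroup Γ} {r : Γ → GL (Fin n) F} (h : MulOn N r) (h' : N' ≤ N) :
    MulOn N' r := fun a ha b hb => h a (h' ha) b (h' hb)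

lemma MulOn.one {N : Subgroup Γ} {r : Γ → GL (Fin n) F} (h : MulOn N r) : r 1 = 1 := by
  have h1 := h 1 N.one_mem 1 N.one_mem
  rw [mul_one] at h1
  exact (mul_eq_left.mp h1.symm)

lemma MulOn.inv {N : Subgroup Γ} {r : Γ → GL (Fin n) F} (h : MulOn N r) {g : Γ} (hg : g ∈ N) :
    r g⁻¹ = (r g)⁻¹ := by
  have h1 := h g hg g⁻¹ (N.inv_mem hg)
  rw [mul_inv_cancel, h.one] at h1
  exact (eq_inv_of_mul_eq_one_right h1.symm)

lemma MulOn.conj {N : Subgroup Γ} {r : Γ → GL (Fin n) F} (h : MulOn N r) (T : GL (Fin n) F) :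
    MulOn N (fun g => T⁻¹ * r g * T) := by
  intro a ha b hb
  show T⁻¹ * r (a * b) * T = T⁻¹ * r a * T * (T⁻¹ * r b * T)
  rw [h a ha b hb]
  group

/-- the span of the image of a subgroup -/
def spn (r : Γ → GL (Fin n) F) (H : Subgroup Γ) : Submodule F (Matrix (Fin n) (Fin n) F) :=
  Submodule.span F {M | ∃ h ∈ H, M = (r h : Matrix (Fin n) (Fin n) F)}

lemma spn_mono (r : Γ → GL (Fin n) F) {H H' : Subgroup Γ} (h : H' ≤ H) : spn r H' ≤ spn r H := by
  apply Submodule.span_mono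
  rintro M ⟨x, hx, rfl⟩
  exact ⟨x, h hx, rfl⟩

/-- the space of intertwiners on a subgroup -/
def itw (a b : Γ → GL (Fin n) F) (H : Subgroup Γ) :
    Submodule F (Matrix (Fin n) (Fin n) F) where
  carrier := {T | ∀ g ∈ H, T * (a g : Matrix (Fin n) (Fin n) F) = (b g : Matrix _ _ F) * T}
  add_mem' := by
    intro x y hx hy g hg
    rw [add_mul, mul_add, hx g hg, hy g hg]
  zero_mem' := by
    intro g _
    rw [zero_mul, mul_zero]
  smul_mem' := by
    intro c x hx g hg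
    rw [smul_mul_assoc, mul_smul_comm, hx g hg]

lemma itw_mono (a b : Γ → GL (Fin n) F) {H H' : Subgroup Γ} (h : H' ≤ H) :
    itw a b H ≤ itw a b H' := fun _ hT g hg => hT g (h hg)

section abstract

variable (Bas : Set (Subgroup Γ))

/-- `N` is in general position with respect to `H`: `N * H = Γ`. -/
def GP (N H : Subgroup Γ) : Prop := ∀ γ : Γ, ∃ a ∈ N, ∃ b ∈ H, γ = a * b

lemma GP.mono {N H H' : Subgroup Γ} (h : GP N H) (h' : H ≤ H') : GP N H' := by
  intro γ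
  obtain ⟨a, ha, b, hb, e⟩ := h γ
  exact ⟨a, ha, b, h' hb, e⟩

/-- stable span -/
lemma exists_stable_span (N : Subgroup Γ) (r : Γ → GL (Fin n) F)
    (hN : ∃ H ∈ Bas, H ≤ N) :
    ∃ H ∈ Bas, H ≤ N ∧ ∀ H' ∈ Bas, H' ≤ H → spn r H' = spn r H := by
  classical
  have hex : ∃ d : ℕ, ∃ H ∈ Bas, H ≤ N ∧ Module.finrank F (spn r H) = d := by
    obtain ⟨H, h1, h2⟩ := hN
    exact ⟨_, H, h1, h2, rfl⟩
  obtain ⟨H, h1, h2, h3⟩ := Nat.find_spec hex
  refine ⟨H, h1, h2, fun H' h1' h2' => ?_⟩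
  apply Submodule.eq_of_le_of_finrank_le (spn_mono r h2')
  rw [h3]
  exact Nat.find_min' hex ⟨H', h1', h2'.trans h2, rfl⟩

/-- stable intertwiners -/
lemma exists_stable_itw (N : Subgroup Γ) (a b : Γ → GL (Fin n) F)
    (hN : ∃ H ∈ Bas, H ≤ N) :
    ∃ H ∈ Bas, H ≤ N ∧ ∀ H' ∈ Bas, H' ≤ H → itw a b H' = itw a b H := by
  classical
  let M := Module.finrank F (Matrix (Fin n) (Fin n) F)
  have hex : ∃ d : ℕ, ∃ H ∈ Bas, H ≤ N ∧ M - Module.finrank F (itw a b H) = d := by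
    obtain ⟨H, h1, h2⟩ := hN
    exact ⟨_, H, h1, h2, rfl⟩
  obtain ⟨H, h1, h2, h3⟩ := Nat.find_spec hex
  refine ⟨H, h1, h2, fun H' h1' h2' => ?_⟩
  symm
  apply Submodule.eq_of_le_of_finrank_le (itw_mono a b h2')
  have h4 := Nat.find_min' hex ⟨H', h1', h2'.trans h2, rfl⟩
  rw [← h3] at h4
  have h5 : Module.finrank F (itw a b H) ≤ M := Submodule.finrank_le _
  have h6 : Module.finrank F (itw a b H') ≤ M := Submodule.finrank_le _
  omega

/-- commuting with a stable span -/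
lemma comm_of_stable {r : Γ → GL (Fin n) F} {H H' : Subgroup Γ} (hs : spn r H' = spn r H)
    (T : GL (Fin n) F) (hT : ∀ g ∈ H', T * r g = r g * T) : ∀ g ∈ H, T * r g = r g * T := by
  have key : ∀ X ∈ spn r H', (T : Matrix (Fin n) (Fin n) F) * X = X * T := by
    intro X hX
    unfold spn at hX
    induction hX using Submodule.span_induction with
    | mem x hx =>
      obtain ⟨g, hg, rfl⟩ := hx
      have := congrArg (Units.val) (hT g hg)
      simpa using this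
    | zero => simp
    | add x y _ _ hx hy => rw [mul_add, add_mul, hx, hy]
    | smul c x _ hx => rw [mul_smul_comm, smul_mul_assoc, hx]
  intro g hg
  apply Units.ext
  have h1 : (r g : Matrix (Fin n) (Fin n) F) ∈ spn r H' := by
    rw [hs]
    exact Submodule.subset_span ⟨g, hg, rfl⟩
  have := key _ h1
  simpa using this

variable {ι : Type*} (N : ι → Subgroup Γ)

/-- **Uniqueness**: two representations of a subgroup that are isomorphic on its intersections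
with all `N j` in sufficiently general position are isomorphic. -/
lemma unique_iso (hinf : ∀ H ∈ Bas, ∀ H' ∈ Bas, ∃ H'' ∈ Bas, H'' ≤ H ⊓ H')
    (hNB : ∀ i, ∃ H ∈ Bas, H ≤ N i) (gp : ∀ H ∈ Bas, ∃ i, GP (N i) H)
    (M : Subgroup Γ) (hM : ∃ H ∈ Bas, H ≤ M) (a b : Γ → GL (Fin n) F)
    (ha : MulOn M a) (hb : MulOn M b) (H1 : Subgroup Γ) (hH1 : H1 ∈ Bas)
    (h : ∀ j, GP (N j) H1 → ∃ T : GL (Fin n) F, ∀ g ∈ M, g ∈ N j → b g = T * a g * T⁻¹) :
    ∃ T : GL (Fin n) F, ∀ g ∈ M, b g = T * a g * T⁻¹ := by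
  obtain ⟨HM, hMB, hMM⟩ := hM
  obtain ⟨L, hLB, hL, hLs⟩ := exists_stable_itw Bas (M ⊓ H1) a b (by
    obtain ⟨H2, h2, h3⟩ := hinf HM hMB H1 hH1
    exact ⟨H2, h2, h3.trans (inf_le_inf_right _ hMM)⟩)
  obtain ⟨j, hj⟩ := gp L hLB
  obtain ⟨T, hT⟩ := h j (hj.mono (hL.trans inf_le_right))
  refine ⟨T, ?_⟩
  -- `T` intertwines on `M ∩ N j`
  have h1 : ∀ g ∈ M, g ∈ N j → T * a g = b g * T := by
    intro g hg hg'
    rw [hT g hg hg']
    group
  obtain ⟨Hj, hjB, hjN⟩ := hNB j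
  obtain ⟨L', hL'B, hL'⟩ := hinf L hLB Hj hjB
  have h2 : (T : Matrix (Fin n) (Fin n) F) ∈ itw a b L := by
    rw [← hLs L' hL'B (hL'.trans inf_le_left)]
    intro g hg
    have h3 : g ∈ L := (hL' hg).1
    have h4 := congrArg Units.val (h1 g (hL h3).1 (hjN (hL' hg).2))
    simpa using h4
  have h3 : ∀ g ∈ L, T * a g = b g * T := by
    intro g hg
    apply Units.ext
    have := h2 g hg
    simpa using this
  intro g hg
  obtain ⟨m, hm, l, hl, e⟩ := hj g
  have hlM : l ∈ M := (hL hl).1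
  have hmM : m ∈ M := by
    have : m = g * l⁻¹ := by rw [e]; group
    rw [this]
    exact M.mul_mem hg (M.inv_mem hlM)
  rw [e, ha m hmM l hlM, hb m hmM l hlM]
  have e1 := h1 m hmM hm
  have e2 := h3 l hl
  rw [eq_mul_inv_iff_mul_eq, mul_assoc, ← e2, ← mul_assoc, ← e1, mul_assoc]

/-- **Existence**: compatible representations of subgroups in general position glue. -/
theorem exists_glue (hnorm : ∀ H ∈ Bas, H.Normal)
    (hinf : ∀ H ∈ Bas, ∀ H' ∈ Bas, ∃ H'' ∈ Bas, H'' ≤ H ⊓ H') (hne : Bas.Nonempty)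
    (hNB : ∀ i, ∃ H ∈ Bas, H ≤ N i) (gp : ∀ H ∈ Bas, ∃ i, GP (N i) H)
    (r : ι → Γ → GL (Fin n) F) (hr : ∀ i, MulOn (N i) (r i))
    (compat : ∀ i j, ∃ T : GL (Fin n) F, ∀ g ∈ N i, g ∈ N j → r j g = T * r i g * T⁻¹) :
    ∃ σ : Γ →* GL (Fin n) F,
      (∀ i, ∃ T : GL (Fin n) F, ∀ g ∈ N i, r i g = T * σ g * T⁻¹) := by
  classical
  obtain ⟨Ht, hHt⟩ := hne
  obtain ⟨i0, -⟩ := gp Ht hHt
  -- step 1: stable subgroup
  obtain ⟨H0, hH0B, hH0N, hst⟩ := exists_stable_span Bas (N i0) (r i0) (hNB i0)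
  have hH0n := hnorm H0 hH0B
  -- step 2
  obtain ⟨i, hi⟩ := gp H0 hH0B
  obtain ⟨Ti, hTi⟩ := compat i0 i
  set s : Γ → GL (Fin n) F := fun g => Ti⁻¹ * r i g * Ti with hs
  have hsm : MulOn (N i) s := (hr i).conj Ti
  have hs0 : ∀ g ∈ N i, g ∈ N i0 → s g = r i0 g := by
    intro g h1 h2
    show Ti⁻¹ * r i g * Ti = r i0 g
    rw [hTi g h2 h1]
    group
  have hr0 : MulOn H0 (r i0) := (hr i0).mono hH0N
  -- step 3
  obtain ⟨Hi, hiB, hiN⟩ := hNB i
  obtain ⟨H1, hH1B, hH1⟩ := hinf Hi hiB H0 hH0B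
  have hH1i : H1 ≤ N i := hH1.trans (inf_le_left.trans hiN)
  have hH10 : H1 ≤ H0 := hH1.trans inf_le_right
  -- aligned versions
  have align : ∀ k, ∃ T : GL (Fin n) F,
      (∀ g ∈ N i, g ∈ N k → T⁻¹ * r k g * T = s g) ∧
      (∀ h ∈ N k, h ∈ H0 → T⁻¹ * r k h * T = r i0 h) := by
    intro k
    obtain ⟨T, hT⟩ := compat i k
    obtain ⟨T', hT'⟩ := compat i0 k
    have h1 : ∀ g ∈ N i, g ∈ N k → (T * Ti)⁻¹ * r k g * (T * Ti) = s g := by
      intro g hg hg'
      rw [hT g hg hg']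
      show _ = Ti⁻¹ * r i g * Ti
      group
    refine ⟨T * Ti, h1, ?_⟩
    set W : GL (Fin n) F := (T * Ti)⁻¹ * T' with hW
    have h2 : ∀ g ∈ N i0, g ∈ N k → (T * Ti)⁻¹ * r k g * (T * Ti) = W * r i0 g * W⁻¹ := by
      intro g hg hg'
      rw [hT' g hg hg', hW]
      group
    obtain ⟨Hk, hkB, hkN⟩ := hNB k
    obtain ⟨H2, hH2B, hH2⟩ := hinf Hk hkB H1 hH1B
    have h3 : ∀ g ∈ H2, W * r i0 g = r i0 g * W := by
      intro g hg
      have hgk : g ∈ N k := hkN (hH2 hg).1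
      have hg1 : g ∈ H1 := (hH2 hg).2
      have e1 := h1 g (hH1i hg1) hgk
      have e2 := h2 g (hH0N (hH10 hg1)) hgk
      have e3 := hs0 g (hH1i hg1) (hH0N (hH10 hg1))
      rw [e1, e3] at e2
      calc W * r i0 g = W * r i0 g * W⁻¹ * W := by group
        _ = r i0 g * W := by rw [← e2]
    have h4 := comm_of_stable (hst H2 hH2B (hH2.trans (inf_le_right.trans hH10))) W h3
    intro h hh hh0
    rw [h2 h (hH0N hh0) hh, h4 h hh0]
    group
  -- step 4
  obtain ⟨j, hj⟩ := gp H1 hH1B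
  obtain ⟨Tj, hTj1, hTj2⟩ := align j
  obtain ⟨t, ht⟩ : ∃ t : Γ → GL (Fin n) F, t = fun g => Tj⁻¹ * r j g * Tj := ⟨_, rfl⟩
  have htm : MulOn (N j) t := by rw [ht]; exact (hr j).conj Tj
  have ht1 : ∀ g ∈ N i, g ∈ N j → t g = s g := by
    intro g hg hg'
    rw [ht]
    exact hTj1 g hg hg'
  have ht2 : ∀ h ∈ N j, h ∈ H0 → t h = r i0 h := by
    intro g hg hg'
    rw [ht]
    exact hTj2 g hg hg'
  have hB1 : ∀ m ∈ N i, m ∈ N j → ∀ h ∈ N j, h ∈ H0 →
      r i0 (m⁻¹ * h * m) = (s m)⁻¹ * r i0 h * s m := by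
    intro m hm hmj h hh hh0
    have hc0 : m⁻¹ * h * m ∈ H0 := by
      have := hH0n.conj_mem h hh0 m⁻¹
      simpa using this
    have hcj : m⁻¹ * h * m ∈ N j := (N j).mul_mem ((N j).mul_mem ((N j).inv_mem hmj) hh) hmj
    rw [← ht2 _ hcj hc0, htm _ ((N j).mul_mem ((N j).inv_mem hmj) hh) _ hmj,
      htm _ ((N j).inv_mem hmj) _ hh, htm.inv hmj, ht1 m hm hmj, ht2 h hh hh0]
  have hB2 : ∀ m ∈ N i, ∀ h ∈ N i, h ∈ H0 → r i0 (m⁻¹ * h * m) = (s m)⁻¹ * r i0 h * s m := by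
    intro m hm h hh hh0
    have hc0 : m⁻¹ * h * m ∈ H0 := by
      have := hH0n.conj_mem h hh0 m⁻¹
      simpa using this
    have hci : m⁻¹ * h * m ∈ N i := (N i).mul_mem ((N i).mul_mem ((N i).inv_mem hm) hh) hm
    rw [← hs0 _ hci (hH0N hc0), ← hs0 _ hh (hH0N hh0),
      hsm _ ((N i).mul_mem ((N i).inv_mem hm) hh) _ hm, hsm _ ((N i).inv_mem hm) _ hh, hsm.inv hm]
  have hB3 : ∀ m ∈ N i, m ∈ N j → ∀ h ∈ H0, r i0 (m⁻¹ * h * m) = (s m)⁻¹ * r i0 h * s m := by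
    intro m hm hmj h hh
    obtain ⟨x, hx, y, hy, e⟩ := hj h
    have hy0 : y ∈ H0 := hH10 hy
    have hx0 : x ∈ H0 := by
      have : x = h * y⁻¹ := by rw [e]; group
      rw [this]
      exact H0.mul_mem hh (H0.inv_mem hy0)
    have e1 := hB1 m hm hmj x hx hx0
    have e2 := hB2 m hm y (hH1i hy) hy0
    have c1 : m⁻¹ * x * m ∈ H0 := by simpa using hH0n.conj_mem x hx0 m⁻¹
    have c2 : m⁻¹ * y * m ∈ H0 := by simpa using hH0n.conj_mem y hy0 m⁻¹
    have e3 : m⁻¹ * h * m = (m⁻¹ * x * m) * (m⁻¹ * y * m) := by rw [e]; group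
    rw [e3, hr0 _ c1 _ c2, e1, e2, e, hr0 _ hx0 _ hy0]
    group
  have hB : ∀ m ∈ N i, ∀ h ∈ H0, r i0 (m⁻¹ * h * m) = (s m)⁻¹ * r i0 h * s m := by
    intro m hm h hh
    obtain ⟨x, hx, y, hy, e⟩ := hj m
    have hyi : y ∈ N i := hH1i hy
    have hy0 : y ∈ H0 := hH10 hy
    have hxi : x ∈ N i := by
      have : x = m * y⁻¹ := by rw [e]; group
      rw [this]
      exact (N i).mul_mem hm ((N i).inv_mem hyi)
    have c1 : x⁻¹ * h * x ∈ H0 := by simpa using hH0n.conj_mem h hh x⁻¹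
    have e1 := hB3 x hxi hx h hh
    have e2 := hB2 y hyi
    have e3 : m⁻¹ * h * m = y⁻¹ * (x⁻¹ * h * x) * y := by rw [e]; group
    have e4 : r i0 (y⁻¹ * (x⁻¹ * h * x) * y) = (r i0 y)⁻¹ * r i0 (x⁻¹ * h * x) * r i0 y := by
      rw [hr0 _ (H0.mul_mem (H0.inv_mem hy0) c1) _ hy0, hr0 _ (H0.inv_mem hy0) _ c1,
        hr0.inv hy0]
    rw [e3, e4, e1, e, hsm x hxi y hyi, hs0 y hyi (hH0N hy0)]
    group
  -- step 5: definition of the representation
  choose pn hpn ph hph hdec using hi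
  have hwd : ∀ a ∈ N i, ∀ b ∈ H0, ∀ a' ∈ N i, ∀ b' ∈ H0, a * b = a' * b' →
      s a * r i0 b = s a' * r i0 b' := by
    intro a ha b hb a' ha' b' hb' e
    have hx1 : a'⁻¹ * a = b' * b⁻¹ := by
      rw [inv_mul_eq_iff_eq_mul, ← mul_assoc, ← e]
      group
    have hxi : a'⁻¹ * a ∈ N i := (N i).mul_mem ((N i).inv_mem ha') ha
    have hx0 : a'⁻¹ * a ∈ H0 := by
      rw [hx1]
      exact H0.mul_mem hb' (H0.inv_mem hb)
    have e1 : s a = s a' * s (a'⁻¹ * a) := by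
      rw [← hsm _ ha' _ hxi]
      congr 1
      group
    have e2 : r i0 b' = r i0 (a'⁻¹ * a) * r i0 b := by
      rw [← hr0 _ hx0 _ hb, hx1]
      congr 1
      group
    rw [e1, e2, hs0 _ hxi (hH0N hx0), mul_assoc]
  let v : Γ → GL (Fin n) F := fun γ => s (pn γ) * r i0 (ph γ)
  have hv : ∀ a ∈ N i, ∀ b ∈ H0, v (a * b) = s a * r i0 b := by
    intro a ha b hb
    exact hwd _ (hpn _) _ (hph _) a ha b hb (hdec _).symm
  have hvmul : ∀ x y, v (x * y) = v x * v y := by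
    intro x y
    have e1 : x * y = (pn x * pn y) * ((pn y)⁻¹ * ph x * pn y * ph y) := by
      conv_lhs => rw [hdec x, hdec y]
      group
    have c1 : (pn y)⁻¹ * ph x * pn y ∈ H0 := by
      simpa using hH0n.conj_mem (ph x) (hph x) (pn y)⁻¹
    rw [e1, hv _ ((N i).mul_mem (hpn x) (hpn y)) _ (H0.mul_mem c1 (hph y)),
      hsm _ (hpn x) _ (hpn y), hr0 _ c1 _ (hph y), hB _ (hpn y) _ (hph x)]
    show _ = s (pn x) * r i0 (ph x) * (s (pn y) * r i0 (ph y))
    group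
  let σ : Γ →* GL (Fin n) F := MonoidHom.mk' v hvmul
  have hσv : ∀ g, σ g = v g := fun _ => rfl
  have hσi : ∀ g ∈ N i, σ g = s g := by
    intro g hg
    have := hv g hg 1 H0.one_mem
    rw [mul_one, hr0.one, mul_one] at this
    rw [hσv, this]
  have hσ0 : ∀ g ∈ H0, σ g = r i0 g := by
    intro g hg
    have := hv 1 (N i).one_mem g hg
    rw [one_mul, hsm.one, one_mul] at this
    rw [hσv, this]
  -- step 6: generic members
  have hgen : ∀ k, GP (N k) H1 → ∃ T : GL (Fin n) F, ∀ g ∈ N k, r k g = T * σ g * T⁻¹ := by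
    intro k hk
    obtain ⟨T, hT1, hT2⟩ := align k
    refine ⟨T, fun g hg => ?_⟩
    obtain ⟨m, hm, l, hl, e⟩ := hk (pn g)
    have hmi : m ∈ N i := by
      have : m = pn g * l⁻¹ := by rw [e]; group
      rw [this]
      exact (N i).mul_mem (hpn g) ((N i).inv_mem (hH1i hl))
    have hb0 : m⁻¹ * g ∈ H0 := by
      have : m⁻¹ * g = l * ph g := by
        rw [inv_mul_eq_iff_eq_mul]
        conv_lhs => rw [hdec g, e]
        group
      rw [this]
      exact H0.mul_mem (hH10 hl) (hph g)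
    have hbk : m⁻¹ * g ∈ N k := (N k).mul_mem ((N k).inv_mem hm) hg
    have e1 : g = m * (m⁻¹ * g) := by group
    have e2 : T⁻¹ * r k g * T = σ g := by
      conv_lhs => rw [e1]
      conv_rhs => rw [e1]
      rw [hr k _ hm _ hbk, map_mul, hσi m hmi, hσ0 _ hb0, ← hT1 m hmi hm, ← hT2 _ hbk hb0]
      group
    rw [← e2]
    group
  -- step 7: all members
  refine ⟨σ, fun k => ?_⟩
  refine unique_iso Bas N hinf hNB gp (N k) (hNB k) (fun g => σ g) (r k)
    (fun a _ b _ => map_mul σ a b) (hr k) H1 hH1B ?_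
  intro l hl
  obtain ⟨T, hT⟩ := hgen l hl
  obtain ⟨T', hT'⟩ := compat l k
  refine ⟨T' * T, fun g hg hgl => ?_⟩
  rw [hT' g hgl hg, hT g hgl]
  group

end abstract

end Pool.Agent.H71.Patch
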